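import Mathlib
import Pool.Agent.helper23.TS.FIN
import Pool.Agent.helper23.TS.ONE
import Pool.Agent.helper17.TS.EXP

/-! # The T-strong open set condition for simple digit sets (MP_332e42_an)

Let `R` be an expansive `d × d` integer matrix and `B` a finite set of integer vectors, pairwise
incongruent modulo `R ℤ^d`. If `B` has at least two elements then the system
`τ_b(x) = R⁻¹(x + b)`, `b ∈ B`, satisfies the T-strong open set condition. For one-element sets
this can fail; in dimension one it fails exactly for `R = 2`. -/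

set_option autoImplicit false

namespace Pool.Agent.Results.MP_332e42_an.TSOSC

/-- `R` is expansive: every complex eigenvalue of `R` has modulus greater than one. -/
def Expansive {d : ℕ} (R : Matrix (Fin d) (Fin d) ℤ) : Prop :=
  ∀ z : ℂ, (R.map (Int.castRingHom ℂ)).charpoly.IsRoot z → 1 < ‖z‖

/-- the map `τ_b(x) = R⁻¹(x + b)` of `ℝ^d` -/
noncomputable def tau {d : ℕ} (R : Matrix (Fin d) (Fin d) ℤ) (b : Fin d → ℤ) (x : Fin d → ℝ) :
    Fin d → ℝ :=
  (R.map (Int.castRingHom ℝ))⁻¹.mulVec (x + fun i => (b i : ℝ))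

/-- `T` is the attractor of the maps `τ_b`, `b ∈ B`: a nonempty compact set with
`T = ⋃_{b ∈ B} τ_b(T)` (it is unique, see `attractor_unique` below). -/
def IsAttractor {d : ℕ} (R : Matrix (Fin d) (Fin d) ℤ) (B : Set (Fin d → ℤ))
    (T : Set (Fin d → ℝ)) : Prop :=
  T.Nonempty ∧ IsCompact T ∧ T = ⋃ b ∈ B, tau R b '' T

/-- `x` and `y` are congruent modulo `R ℤ^d`. -/
def Cong {d : ℕ} (R : Matrix (Fin d) (Fin d) ℤ) (x y : Fin d → ℤ) : Prop :=
  ∃ z : Fin d → ℤ, x - y = R.mulVec z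

/-- `B` is a (finite, nonempty) simple digit set for `R`. -/
def SimpleDigits {d : ℕ} (R : Matrix (Fin d) (Fin d) ℤ) (B : Finset (Fin d → ℤ)) : Prop :=
  B.Nonempty ∧ ∀ b ∈ B, ∀ b' ∈ B, Cong R b b' → b = b'

/-- `D` is a complete set of representatives modulo `R ℤ^d`. -/
def CompleteReps {d : ℕ} (R : Matrix (Fin d) (Fin d) ℤ) (D : Set (Fin d → ℤ)) : Prop :=
  ∀ x : Fin d → ℤ, ∃! b, b ∈ D ∧ Cong R x b

/-- the T-strong open set condition: for some complete set of representatives `D ⊇ B` the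
attractor of `(R, B)` meets the interior of the attractor of `(R, D)`. -/
def TSOSCond {d : ℕ} (R : Matrix (Fin d) (Fin d) ℤ) (B : Finset (Fin d → ℤ)) : Prop :=
  ∃ D : Set (Fin d → ℤ), (B : Set (Fin d → ℤ)) ⊆ D ∧ CompleteReps R D ∧
    ∃ TB TD : Set (Fin d → ℝ), IsAttractor R B TB ∧ IsAttractor R D TD ∧
      (TB ∩ interior TD).Nonempty

open Pool.Agent.helper23.TS in
private theorem isAttractor_iff {d : ℕ} {R : Matrix (Fin d) (Fin d) ℤ} {S : Sys d}
    (hA : ∀ x, S.A.symm x = ((R.map (Int.castRingHom ℝ))⁻¹).mulVec x) (B : Set (Fin d → ℤ))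
    (T : Set (Fin d → ℝ)) : IsAttractor R B T ↔ IsAttr S B T := by
  have h : ∀ b : Fin d → ℤ, tau R b = fun x => S.A.symm (x + toR b) := by
    intro b
    funext x
    rw [hA]
    rfl
  unfold IsAttractor IsAttr
  simp only [h]

open Pool.Agent.helper23.TS in
private theorem simple_iff {d : ℕ} {R : Matrix (Fin d) (Fin d) ℤ} {S : Sys d}
    (hR : ∀ x, S.R x = R.mulVec x) (B : Set (Fin d → ℤ)) :
    Simple S.R B ↔ ∀ b ∈ B, ∀ b' ∈ B, Cong R b b' → b = b' := by
  constructor
  · rintro h b hb b' hb' ⟨z, hz⟩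
    refine h b hb b' hb' z ?_
    rw [hR, ← hz]
    abel
  · intro h b hb b' hb' y hy
    refine h b hb b' hb' ⟨y, ?_⟩
    rw [hR] at hy
    nth_rewrite 1 [hy]
    abel

open Pool.Agent.helper23.TS in
private theorem complete_of {d : ℕ} {R : Matrix (Fin d) (Fin d) ℤ} {S : Sys d}
    (hR : ∀ x, S.R x = R.mulVec x) {D : Set (Fin d → ℤ)} (h1 : Simple S.R D) (h2 : Full S.R D) :
    CompleteReps R D := by
  intro x
  obtain ⟨b, hb, y, hy⟩ := h2 x
  refine ⟨b, ⟨hb, y, ?_⟩, ?_⟩
  · rw [← hR, hy]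
    abel
  · rintro b' ⟨hb', z, hz⟩
    refine h1 b' hb' b hb (y - z) ?_
    rw [map_sub, hR z, ← hz, hy]
    abel

open Pool.Agent.helper23.TS in
private theorem simple_of_complete {d : ℕ} {R : Matrix (Fin d) (Fin d) ℤ} {S : Sys d}
    (hR : ∀ x, S.R x = R.mulVec x) {D : Set (Fin d → ℤ)} (h : CompleteReps R D) :
    Simple S.R D := by
  rw [simple_iff hR]
  intro b hb b' hb' hc
  obtain ⟨e, -, he⟩ := h b
  rw [he b' ⟨hb', hc⟩]
  exact he b ⟨hb, 0, by simp⟩

/-- The attractor exists and is unique (a well-known fact). -/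
theorem attractor_unique {d : ℕ} {R : Matrix (Fin d) (Fin d) ℤ} (hR : Expansive R)
    (B : Finset (Fin d → ℤ)) (hB : B.Nonempty) : ∃! T, IsAttractor R B T := by
  obtain ⟨S, hSR, hSA⟩ := Pool.Agent.helper23.TS.exists_sys R hR
  obtain ⟨T, hT⟩ := Pool.Agent.helper23.TS.attr_exists S B.finite_toSet (by simpa using hB)
  refine ⟨T, (isAttractor_iff hSA _ _).2 hT, fun T' hT' => ?_⟩
  exact Pool.Agent.helper23.TS.attr_unique S B.finite_toSet ((isAttractor_iff hSA _ _).1 hT') hT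

open Pool.Agent.helper23.TS in
private theorem tsosc_of {d : ℕ} {R : Matrix (Fin d) (Fin d) ℤ} {S : Sys d}
    (hSR : ∀ x, S.R x = R.mulVec x)
    (hSA : ∀ x, S.A.symm x = ((R.map (Int.castRingHom ℝ))⁻¹).mulVec x)
    {B : Finset (Fin d → ℤ)} (hB : B.Nonempty)
    (h : ∃ D : Set (Fin d → ℤ), D.Finite ∧ (B : Set (Fin d → ℤ)) ⊆ D ∧ Simple S.R D ∧
      Full S.R D ∧ ∀ TB TD, IsAttr S B TB → IsAttr S D TD → (TB ∩ interior TD).Nonempty) :
    TSOSCond R B := by
  obtain ⟨D, hDf, hBD, hDs, hDF, hmain⟩ := h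
  have hBne : (B : Set (Fin d → ℤ)).Nonempty := by simpa using hB
  obtain ⟨TB, hTB⟩ := attr_exists S B.finite_toSet hBne
  obtain ⟨TD, hTD⟩ := attr_exists S hDf (hBne.mono hBD)
  exact ⟨D, hBD, complete_of hSR hDs hDF, TB, TD, (isAttractor_iff hSA _ _).2 hTB,
    (isAttractor_iff hSA _ _).2 hTD, hmain TB TD hTB hTD⟩

private theorem two {d : ℕ} (R : Matrix (Fin d) (Fin d) ℤ) (B : Finset (Fin d → ℤ))
    (hR : Expansive R) (hB : SimpleDigits R B) (hB2 : 2 ≤ B.card) : TSOSCond R B := by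
  obtain ⟨S, hSR, hSA⟩ := Pool.Agent.helper23.TS.exists_sys R hR
  refine tsosc_of hSR hSA hB.1 (Pool.Agent.helper23.TS.tsosc_two S B.finite_toSet
    ((simple_iff hSR _).2 (by simpa using hB.2)) ?_)
  obtain ⟨b₀, hb₀, b, hb, hne⟩ := Finset.one_lt_card.1 (show 1 < B.card by omega)
  exact ⟨b₀, by simpa using hb₀, b, by simpa using hb, hne.symm⟩

open Pool.Agent.helper23.TS in
private theorem translate_back {d : ℕ} {S : Sys d} {b₀ : Fin d → ℤ} {D : Set (Fin d → ℤ)}
    (h0 : (0 : Fin d → ℤ) ∈ D) (hDf : D.Finite) (hDs : Simple S.R D) (hDF : Full S.R D)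
    (hmain : ∀ TB TD, IsAttr S {0} TB → IsAttr S D TD → (TB ∩ interior TD).Nonempty) :
    ∃ D : Set (Fin d → ℤ), D.Finite ∧ {b₀} ⊆ D ∧ Simple S.R D ∧
      Full S.R D ∧ ∀ TB TD, IsAttr S {b₀} TB → IsAttr S D TD → (TB ∩ interior TD).Nonempty := by
  obtain ⟨v, hv⟩ := exists_fixed S b₀
  refine ⟨(fun b => b + b₀) '' D, hDf.image _, ?_, ?_, ?_, ?_⟩
  · rw [Set.singleton_subset_iff]
    exact ⟨0, h0, zero_add _⟩
  · rintro _ ⟨b, hb, rfl⟩ _ ⟨b', hb', rfl⟩ y hy
    have : b = b' := by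
      apply hDs b hb b' hb' y
      have h1 : b = b + b₀ - b₀ := by abel
      rw [h1]
      simp only at hy
      rw [hy]
      abel
    rw [this]
  · intro x
    obtain ⟨δ, hδ, y, hy⟩ := hDF (x - b₀)
    refine ⟨δ + b₀, ⟨δ, hδ, rfl⟩, y, ?_⟩
    have : x = x - b₀ + b₀ := by abel
    rw [this, hy]
    abel
  · intro TB TD hTB hTD
    have h1 := isAttr_translate S hv hTB
    have h2 := isAttr_translate S hv hTD
    have h3 : (fun b => b - b₀) '' ((fun b => b + b₀) '' D) = D := by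
      rw [Set.image_image]
      simp
    rw [h3] at h2
    rw [Set.image_singleton, sub_self] at h1
    obtain ⟨z, hz1, hz2⟩ := hmain _ _ h1 h2
    obtain ⟨x, hx, rfl⟩ := hz1
    refine ⟨x, hx, ?_⟩
    have h4 : (fun x => x - v) '' TD = (Homeomorph.subRight v) '' TD := rfl
    rw [h4, ← Homeomorph.image_interior] at hz2
    obtain ⟨w, hw, hwx⟩ := hz2
    have : w = x := sub_left_injective hwx
    rwa [← this]

private theorem entry_abs {R : Matrix (Fin 1) (Fin 1) ℤ} (hR : Expansive R) : 2 ≤ |R 0 0| := by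
  have h := hR (R 0 0) (by
    rw [Polynomial.IsRoot.def, Matrix.charpoly, Matrix.det_fin_one, Matrix.charmatrix_apply]
    simp)
  rw [Complex.norm_intCast] at h
  have h2 : (1 : ℤ) < |R 0 0| := by exact_mod_cast h
  omega

private theorem one_fail {R : Matrix (Fin 1) (Fin 1) ℤ} {b₀ : Fin 1 → ℤ} (hR : Expansive R)
    (h2 : R 0 0 = 2) : ¬ TSOSCond R {b₀} := by
  obtain ⟨S, hSR, hSA⟩ := Pool.Agent.helper23.TS.exists_sys R hR
  rintro ⟨D, hBD, hD, TB, TD, hTB, hTD, hne⟩
  rw [isAttractor_iff hSA] at hTB hTD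
  obtain ⟨v, hv⟩ := Pool.Agent.helper23.TS.exists_fixed S b₀
  have h1 := Pool.Agent.helper23.TS.isAttr_translate S hv hTB
  have h2' := Pool.Agent.helper23.TS.isAttr_translate S hv hTD
  rw [Finset.coe_singleton, Set.image_singleton, sub_self] at h1
  have hDs := simple_of_complete hSR hD
  have h3 := Pool.Agent.helper23.TS.cex S (fun x => by
    rw [hSR]
    funext i
    rw [Subsingleton.elim i 0]
    simp [Matrix.mulVec, dotProduct, h2]) ((fun b => b - b₀) '' D) (by
      rintro _ ⟨b, hb, rfl⟩ _ ⟨b', hb', rfl⟩ y hy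
      have : b = b' := by
        apply hDs b hb b' hb' y
        have h1 : b - b₀ = b' - b₀ + S.R y := hy
        have : b = b - b₀ + b₀ := by abel
        rw [this, h1]
        abel
      rw [this]) ⟨b₀, hBD (by simp), sub_self _⟩ _ _ h1 h2'
  obtain ⟨x, hx1, hx2⟩ := hne
  have h4 : x - v ∈ (fun x => x - v) '' TB ∩ interior ((fun x => x - v) '' TD) := by
    refine ⟨⟨x, hx1, rfl⟩, ?_⟩
    have h4 : (fun x => x - v) '' TD = (Homeomorph.subRight v) '' TD := rfl
    rw [h4, ← Homeomorph.image_interior]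
    exact ⟨x, hx2, rfl⟩
  rw [h3] at h4
  exact h4

/-- **T-SOSC for simple digit sets.** Every simple digit set `B` with at least two elements of an
expansive integer matrix `R`, in any dimension, satisfies the T-strong open set condition. In
dimension one a simple digit set satisfies it if and only if it is not a single digit with
`R = 2`. -/
theorem result :
    (∀ (d : ℕ) (R : Matrix (Fin d) (Fin d) ℤ) (B : Finset (Fin d → ℤ)), Expansive R →
      SimpleDigits R B → 2 ≤ B.card → TSOSCond R B) ∧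
    (∀ (R : Matrix (Fin 1) (Fin 1) ℤ) (B : Finset (Fin 1 → ℤ)), Expansive R →
      SimpleDigits R B → (TSOSCond R B ↔ ¬ (B.card = 1 ∧ R 0 0 = 2))) := by
  refine ⟨fun d R B => two R B, fun R B hR hB => ⟨?_, fun h => ?_⟩⟩
  · rintro hT ⟨h1, h2⟩
    obtain ⟨b₀, rfl⟩ := Finset.card_eq_one.1 h1
    exact one_fail hR h2 hT
  · by_cases hc : B.card = 1
    · obtain ⟨b₀, rfl⟩ := Finset.card_eq_one.1 hc
      have h2 : R 0 0 ≠ 2 := fun h2 => h ⟨hc, h2⟩
      obtain ⟨S, hSR, hSA⟩ := Pool.Agent.helper23.TS.exists_sys R hR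
      obtain ⟨D, hDf, h0, hDs, hDF, hmain⟩ := Pool.Agent.helper23.TS.tsosc_one S (r := R 0 0)
        (fun x => by
          rw [hSR]
          funext i
          rw [Subsingleton.elim i 0]
          simp [Matrix.mulVec, dotProduct]) (entry_abs hR) h2
      refine tsosc_of hSR hSA hB.1 ?_
      rw [Finset.coe_singleton]
      exact translate_back h0 hDf hDs hDF hmain
    · have := hB.1.card_pos
      exact two R B hR hB (by omega)

end Pool.Agent.Results.MP_332e42_an.TSOSC
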